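import Pool.Agent.EV3.Lang

set_option autoImplicit false

/-!
# Restriction of the language with descriptions to letters in a given set of positions
-/

namespace Pool.Agent.EV3

open Finset Pool.Agent.NXL

/-- The number of elements of `V` below `v`. -/
def ind (V : Finset ℕ) (v : ℕ) : ℕ := (V.filter (· < v)).card

lemma ind_lt {V : Finset ℕ} {v : ℕ} (hv : v ∈ V) : ind V v < V.card := by
  unfold ind
  refine Finset.card_lt_card ⟨Finset.filter_subset _ _, fun h => ?_⟩
  have := (Finset.mem_filter.1 (h hv)).2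
  omega

lemma ind_lt_ind {V : Finset ℕ} {u v : ℕ} (hu : u ∈ V) (h : u < v) : ind V u < ind V v := by
  unfold ind
  refine Finset.card_lt_card ⟨fun a ha => ?_, fun h2 => ?_⟩
  · rw [Finset.mem_filter] at ha ⊢
    exact ⟨ha.1, by omega⟩
  · have := (Finset.mem_filter.1 (h2 (Finset.mem_filter.2 ⟨hu, h⟩))).2
    omega

lemma ind_inj {V : Finset ℕ} {u v : ℕ} (hu : u ∈ V) (hv : v ∈ V) (h : ind V u = ind V v) :
    u = v := by
  rcases lt_trichotomy u v with h1 | h1 | h1
  · have := ind_lt_ind hu h1
    omega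
  · exact h1
  · have := ind_lt_ind hv h1
    omega

lemma ind_surj {V : Finset ℕ} {m : ℕ} (hV : V.card = m) (a : Fin m) : ∃ v ∈ V, ind V v = a := by
  classical
  have h1 : (V.image (ind V)) = range m := by
    refine Finset.eq_of_subset_of_card_le (fun b hb => ?_) ?_
    · obtain ⟨v, hv, rfl⟩ := Finset.mem_image.1 hb
      rw [Finset.mem_range, ← hV]
      exact ind_lt hv
    · rw [Finset.card_range, Finset.card_image_of_injOn fun u hu v hv h => ind_inj hu hv h, hV]
  have h2 : (a : ℕ) ∈ V.image (ind V) := by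
    rw [h1, Finset.mem_range]
    exact a.2
  obtain ⟨v, hv, h3⟩ := Finset.mem_image.1 h2
  exact ⟨v, hv, h3⟩

lemma ind_eq_sum (V : Finset ℕ) (v : ℕ) :
    ind V v = ∑ u ∈ range v, if u ∈ V then 1 else 0 := by
  classical
  unfold ind
  rw [Finset.sum_ite_mem, Finset.sum_const, smul_eq_mul, mul_one]
  congr 1
  ext u
  rw [Finset.mem_filter, Finset.mem_inter, Finset.mem_range, and_comm]

/-- Among more than `3 m + 2` positions there are more than `m` of one part. -/
lemma exists_part {n m : ℕ} (U : Finset (Fin n)) (h : 3 * m + 3 ≤ U.card) :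
    ∃ i < 3, ∃ V : Finset ℕ, V.card = m + 1 ∧ ∀ v ∈ V, v < n / 3 ∧
      ∃ h : i * (n / 3) + v < n, (⟨i * (n / 3) + v, h⟩ : Fin n) ∈ U := by
  classical
  set q := n / 3 with hq
  have hqn : 3 * q ≤ n := Nat.mul_div_le n 3
  have hn : n < 3 * q + 3 := by omega
  let P : ℕ → Finset ℕ := fun i => (range q).filter fun v =>
    ∃ h : i * q + v < n, (⟨i * q + v, h⟩ : Fin n) ∈ U
  -- the positions of `U` are in the parts, but two
  have h1 : U.card ≤ (P 0).card + (P 1).card + (P 2).card + 2 := by
    have h2 : U ⊆ (univ.filter fun v : Fin n => v ∈ U ∧ (v : ℕ) < 3 * q) ∪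
        (univ.filter fun v : Fin n => 3 * q ≤ (v : ℕ)) := by
      intro v hv
      rcases Nat.lt_or_ge (v : ℕ) (3 * q) with h3 | h3
      · exact Finset.mem_union_left _ (Finset.mem_filter.2 ⟨Finset.mem_univ _, hv, h3⟩)
      · exact Finset.mem_union_right _ (Finset.mem_filter.2 ⟨Finset.mem_univ _, h3⟩)
    refine (Finset.card_le_card h2).trans ((Finset.card_union_le _ _).trans ?_)
    have h3 : (univ.filter fun v : Fin n => 3 * q ≤ (v : ℕ)).card ≤ 2 := by
      have h4 : (univ.filter fun v : Fin n => 3 * q ≤ (v : ℕ)).card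
          ≤ (Finset.Ico (3 * q) (3 * q + 2)).card := by
        refine Finset.card_le_card_of_injOn (fun v : Fin n => (v : ℕ)) (fun v hv => ?_)
          fun u _ v _ h => Fin.ext h
        have h5 := (Finset.mem_filter.1 hv).2
        have h6 := v.2
        simp only [Finset.coe_Ico, Set.mem_Ico]
        omega
      rw [Nat.card_Ico] at h4
      omega
    have h4 : (univ.filter fun v : Fin n => v ∈ U ∧ (v : ℕ) < 3 * q).card
        ≤ (P 0).card + (P 1).card + (P 2).card := by
      have h5 : (univ.filter fun v : Fin n => v ∈ U ∧ (v : ℕ) < 3 * q).card ≤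
          (((P 0).image fun v => 0 * q + v) ∪ ((P 1).image fun v => 1 * q + v) ∪
            ((P 2).image fun v => 2 * q + v)).card := by
        refine Finset.card_le_card_of_injOn (fun v : Fin n => (v : ℕ)) (fun v hv => ?_)
          fun u _ v _ h => Fin.ext h
        obtain ⟨-, h6, h7⟩ := Finset.mem_filter.1 hv
        have h8 : ∀ i, i * q ≤ (v : ℕ) → (v : ℕ) < i * q + q → (v : ℕ) - i * q ∈ P i := by
          intro i hi hi2
          refine Finset.mem_filter.2 ⟨Finset.mem_range.2 (by omega), ?_⟩
          have e : i * q + ((v : ℕ) - i * q) = v := by omega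
          refine ⟨by rw [e]; exact v.2, ?_⟩
          have e2 : (⟨i * q + ((v : ℕ) - i * q), by rw [e]; exact v.2⟩ : Fin n) = v := Fin.ext e
          rw [e2]
          exact h6
        rw [Finset.mem_coe, Finset.mem_union, Finset.mem_union]
        rcases Nat.lt_or_ge (v : ℕ) q with h9 | h9
        · exact Or.inl (Or.inl (Finset.mem_image.2 ⟨(v : ℕ) - 0 * q, h8 0 (by omega) (by omega),
            by show 0 * q + ((v : ℕ) - 0 * q) = v; omega⟩))
        rcases Nat.lt_or_ge (v : ℕ) (2 * q) with h10 | h10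
        · exact Or.inl (Or.inr (Finset.mem_image.2 ⟨(v : ℕ) - 1 * q, h8 1 (by omega) (by omega),
            by show 1 * q + ((v : ℕ) - 1 * q) = v; omega⟩))
        · exact Or.inr (Finset.mem_image.2 ⟨(v : ℕ) - 2 * q, h8 2 (by omega) (by omega),
            by show 2 * q + ((v : ℕ) - 2 * q) = v; omega⟩)
      refine h5.trans ((Finset.card_union_le _ _).trans (Nat.add_le_add
        ((Finset.card_union_le _ _).trans (Nat.add_le_add Finset.card_image_le
          Finset.card_image_le)) Finset.card_image_le))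
    omega
  have h2 : ∃ i < 3, m + 1 ≤ (P i).card := by
    by_contra hcon
    push Not at hcon
    have a0 := hcon 0 (by norm_num)
    have a1 := hcon 1 (by norm_num)
    have a2 := hcon 2 (by norm_num)
    omega
  obtain ⟨i, hi, h3⟩ := h2
  obtain ⟨V, hV1, hV2⟩ := Finset.exists_subset_card_eq h3
  refine ⟨i, hi, V, hV2, fun v hv => ?_⟩
  obtain ⟨h4, h5⟩ := Finset.mem_filter.1 (hV1 hv)
  exact ⟨Finset.mem_range.1 h4, h5⟩

/-- **Restriction.** For every set `U` of at least `3 m + 3` positions, `m ≤ n / d`, the language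
of the words of length `n` becomes the language of the words of length `m` when all letters but `m`
letters in `U` are fixed. -/
theorem elang_restrict (d n m : ℕ) (U : Finset (Fin n)) (h1 : 3 * m + 3 ≤ U.card)
    (h2 : m ≤ n / d) :
    ∃ φ : Fin n → Fin m ⊕ Bool, (∀ v, v ∉ U → ∃ c, φ v = .inr c) ∧
      (∀ a, ∃ v, φ v = .inl a) ∧
      (∀ v v' a, φ v = .inl a → φ v' = .inl a → v = v') ∧
      ∀ z : Fin m → Bool,
        elang d (List.ofFn fun v => Sum.elim z id (φ v)) = slang 1 (List.ofFn z) := by
  classical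
  obtain ⟨i, hi, V', hV', hU⟩ := exists_part U h1
  -- the part `V` of `V'` and one more position
  obtain ⟨V, hV1, hV2⟩ := Finset.exists_subset_card_eq (s := V') (n := m) (by omega)
  obtain ⟨v₀, hv₀, hv₀'⟩ : ∃ v ∈ V', v ∉ V := by
    by_contra hcon
    push Not at hcon
    have := Finset.card_le_card (show V' ⊆ V from hcon)
    omega
  set q := n / 3 with hq
  have hqn : 3 * q ≤ n := Nat.mul_div_le n 3
  have hv₀q : v₀ < q := (hU v₀ hv₀).1
  have hVq : ∀ v ∈ V, v < q := fun v hv => (hU v (hV1 hv)).1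
  let φ : Fin n → Fin m ⊕ Bool := fun p =>
    if (p : ℕ) / q = i then
      if h : (p : ℕ) % q ∈ V then .inl ⟨ind V ((p : ℕ) % q), hV2 ▸ ind_lt h⟩ else .inr false
    else if (p : ℕ) / q = (i + 1) % 3 then .inr (decide ((p : ℕ) % q ∉ V))
    else if (p : ℕ) / q = (i + 2) % 3 then .inr (decide ((p : ℕ) % q ∈ V))
    else .inr false
  have hdiv : ∀ j v, v < q → (j * q + v) / q = j := by
    intro j v hv
    rw [mul_comm, Nat.mul_add_div (by omega), Nat.div_eq_of_lt hv, add_zero]
  have hmod : ∀ j v, v < q → (j * q + v) % q = v := by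
    intro j v hv
    rw [mul_comm, Nat.mul_add_mod, Nat.mod_eq_of_lt hv]
  have hm3 : i % 3 = i := Nat.mod_eq_of_lt hi
  have f0 : ∀ v (hv : v ∈ V) (h : prt n i v < n), φ ⟨prt n i v, h⟩ =
      .inl ⟨ind V v, hV2 ▸ ind_lt hv⟩ := by
    intro v hv h
    have e1 : prt n i v / q = i := by unfold prt; rw [hm3]; exact hdiv i v (hVq v hv)
    have e2 : prt n i v % q = v := by unfold prt; rw [hm3]; exact hmod i v (hVq v hv)
    show (if prt n i v / q = i then _ else _) = _
    rw [if_pos e1, dif_pos (by rw [e2]; exact hv)]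
    simp only [e2]
  have f0' : ∀ v < q, v ∉ V → ∀ h : prt n i v < n, φ ⟨prt n i v, h⟩ = .inr false := by
    intro v hv hvV h
    have e1 : prt n i v / q = i := by unfold prt; rw [hm3]; exact hdiv i v hv
    have e2 : prt n i v % q = v := by unfold prt; rw [hm3]; exact hmod i v hv
    show (if prt n i v / q = i then _ else _) = _
    rw [if_pos e1, dif_neg (by rw [e2]; exact hvV)]
  have f1 : ∀ v < q, ∀ h : prt n (i + 1) v < n, φ ⟨prt n (i + 1) v, h⟩ =
      .inr (decide (v ∉ V)) := by
    intro v hv h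
    have e1 : prt n (i + 1) v / q = (i + 1) % 3 := hdiv _ v hv
    have e2 : prt n (i + 1) v % q = v := hmod _ v hv
    show (if prt n (i + 1) v / q = i then _ else _) = _
    rw [if_neg (by rw [e1]; omega), if_pos e1, e2]
  have f2 : ∀ v < q, ∀ h : prt n (i + 2) v < n, φ ⟨prt n (i + 2) v, h⟩ =
      .inr (decide (v ∈ V)) := by
    intro v hv h
    have e1 : prt n (i + 2) v / q = (i + 2) % 3 := hdiv _ v hv
    have e2 : prt n (i + 2) v % q = v := hmod _ v hv
    show (if prt n (i + 2) v / q = i then _ else _) = _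
    rw [if_neg (by rw [e1]; omega), if_neg (by rw [e1]; omega), if_pos e1, e2]
  have finl : ∀ (p : Fin n) a, φ p = .inl a → (p : ℕ) / q = i ∧ (p : ℕ) % q ∈ V ∧
      ind V ((p : ℕ) % q) = a := by
    intro p a hp
    have hp' : (if (p : ℕ) / q = i then
      if h : (p : ℕ) % q ∈ V then Sum.inl (⟨ind V ((p : ℕ) % q), hV2 ▸ ind_lt h⟩ : Fin m)
        else Sum.inr false
      else if (p : ℕ) / q = (i + 1) % 3 then .inr (decide ((p : ℕ) % q ∉ V))
      else if (p : ℕ) / q = (i + 2) % 3 then .inr (decide ((p : ℕ) % q ∈ V))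
      else .inr false) = (.inl a : Fin m ⊕ Bool) := hp
    split_ifs at hp' with c1 c2
    · refine ⟨c1, c2, ?_⟩
      rw [← Sum.inl.inj hp']
  refine ⟨φ, fun p hp => ?_, fun a => ?_, fun p p' a hp hp' => ?_, fun z => ?_⟩
  · rcases hφ : φ p with a | c
    · exfalso
      obtain ⟨c1, c2, -⟩ := finl p a hφ
      obtain ⟨h3, h4, h5⟩ := hU _ (hV1 c2)
      have e : i * q + (p : ℕ) % q = p := by
        rw [← c1, mul_comm]
        exact Nat.div_add_mod _ _
      exact hp (by
        have e2 : (⟨i * q + (p : ℕ) % q, h4⟩ : Fin n) = p := Fin.ext e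
        rwa [e2] at h5)
    · exact ⟨c, rfl⟩
  · obtain ⟨v, hv, h3⟩ := ind_surj hV2 a
    refine ⟨⟨prt n i v, prt_lt i (hVq v hv)⟩, ?_⟩
    rw [f0 v hv]
    exact congrArg Sum.inl (Fin.ext h3)
  · obtain ⟨c1, c2, c3⟩ := finl p a hp
    obtain ⟨c1', c2', c3'⟩ := finl p' a hp'
    have h3 := ind_inj c2 c2' (c3.trans c3'.symm)
    have e : q * ((p : ℕ) / q) + (p : ℕ) % q = p := Nat.div_add_mod _ _
    have e' : q * ((p' : ℕ) / q) + (p' : ℕ) % q = p' := Nat.div_add_mod _ _
    rw [c1] at e
    rw [c1'] at e'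
    exact Fin.ext (by omega)
  · -- the letters
    have hval : ∀ a (h : a < n), (List.ofFn fun v => (Sum.elim z id (φ v) : Bool)).getD a false
        = Sum.elim z id (φ ⟨a, h⟩) := fun a h => getD_ofFn _ h
    obtain ⟨x, hx⟩ : ∃ x : ℕ → Bool, x = fun a =>
      (List.ofFn fun v => (Sum.elim z id (φ v) : Bool)).getD a false := ⟨_, rfl⟩
    have hxv : ∀ a (h : a < n), x a = Sum.elim z id (φ ⟨a, h⟩) := fun a h => by
      rw [hx]; exact hval a h
    have g1 : ∀ v < q, x (prt n (i + 1) v) = decide (v ∉ V) := fun v hv => by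
      rw [hxv _ (prt_lt _ hv), f1 v hv]; rfl
    have g2 : ∀ v < q, x (prt n (i + 2) v) = decide (v ∈ V) := fun v hv => by
      rw [hxv _ (prt_lt _ hv), f2 v hv]; rfl
    have g0' : ∀ v < q, v ∉ V → x (prt n i v) = false := fun v hv hvV => by
      rw [hxv _ (prt_lt _ hv), f0' v hv hvV]; rfl
    have g0 : ∀ v (hv : v ∈ V), x (prt n i v) = z ⟨ind V v, hV2 ▸ ind_lt hv⟩ := fun v hv => by
      rw [hxv _ (prt_lt _ (hVq v hv)), f0 v hv]; rfl
    have hper : ∀ j v, prt n (j + 3) v = prt n j v := fun j v => by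
      unfold prt; rw [Nat.add_mod_right]
    have hrk : ∀ v ≤ q, rk n i x v = ind V v := by
      intro v hv
      rw [ind_eq_sum]
      unfold rk
      refine Finset.sum_congr rfl fun u hu => ?_
      rw [g2 u (lt_of_lt_of_le (Finset.mem_range.1 hu) hv)]
      simp only [decide_eq_true_eq]
    have hrkq : rk n i x q = m := by
      rw [hrk q le_rfl, ← hV2]
      unfold ind
      rw [Finset.filter_true_of_mem hVq]
    have hzz : ∀ a (h : a < m), (List.ofFn z).getD a false = z ⟨a, h⟩ := fun a h => getD_ofFn _ h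
    rw [Bool.eq_iff_iff, elang_iff, slang_iff, List.length_ofFn, List.length_ofFn, Nat.div_one]
    refine exists_congr fun w => ?_
    show EVer n (n / d) (fun a => (List.ofFn fun v => (Sum.elim z id (φ v) : Bool)).getD a false) w ↔ _
    rw [← hx]
    constructor
    · rintro ⟨j, hj, h3, h4⟩
      have hji : j = i ∨ j % 3 = (i + 1) % 3 ∨ j % 3 = (i + 2) % 3 := by omega
      rcases hji with rfl | hj1 | hj2
      · rcases h4 with ⟨v, hv, h5, h6⟩ | ⟨-, h5⟩
        · rw [g1 v hv, decide_eq_true_iff] at h5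
          rw [g2 v hv, decide_eq_true_iff] at h6
          exact absurd h6 h5
        · rw [← hq, hrkq] at h5
          refine scale_mono (fun a ha h6 => ?_) h5
          rw [virt_iff] at h6
          obtain ⟨v, hv, h7, h8, h9⟩ := h6
          rw [g2 v hv, decide_eq_true_iff] at h7
          rw [g0 v h7] at h9
          rw [hrk v hv.le] at h8
          subst h8
          rw [hzz _ ha]
          exact h9
      · -- the next part
        exfalso
        have e1 : prt n (j + 1) v₀ = prt n (i + 2) v₀ := by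
          unfold prt
          congr 2
          omega
        have e2 : prt n (j + 2) v₀ = prt n i v₀ := by
          unfold prt
          congr 2
          omega
        rcases h3 v₀ hv₀q with h5 | h5
        · rw [e1, g2 v₀ hv₀q, decide_eq_true_iff] at h5
          exact hv₀' h5
        · rw [e2, g0' v₀ hv₀q hv₀'] at h5
          exact absurd h5 (by simp)
      · -- the part before
        exfalso
        have e1 : ∀ v, prt n (j + 1) v = prt n i v := by
          intro v
          unfold prt
          congr 2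
          omega
        have e2 : ∀ v, prt n (j + 2) v = prt n (i + 1) v := by
          intro v
          unfold prt
          congr 2
          omega
        have e0 : ∀ v, prt n j v = prt n (i + 2) v := by
          intro v
          unfold prt
          rw [hj2]
        rcases h4 with ⟨v, hv, h5, h6⟩ | ⟨-, N, hN, i', hi', ⟨-, h5⟩, -⟩
        · rw [e2, g1 v hv, decide_eq_true_iff] at h6
          rw [e1, g0' v hv h6] at h5
          exact absurd h5 (by simp)
        · rw [virt_iff] at h5
          obtain ⟨v, hv, h7, -, h9⟩ := h5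
          rw [e2, g1 v hv, decide_eq_true_iff] at h7
          rw [e0, g2 v hv, decide_eq_true_iff] at h9
          exact h7 h9
    · intro h3
      refine ⟨i, hi, fun v hv => ?_, Or.inr ⟨?_, ?_⟩⟩
      · rw [g1 v hv, g2 v hv, decide_eq_true_iff, decide_eq_true_iff]
        tauto
      · rw [← hq, hrkq]
        exact h2
      · rw [← hq, hrkq]
        refine scale_mono (fun a ha h4 => ?_) h3
        rw [virt_iff]
        obtain ⟨v, hv, h5⟩ := ind_surj hV2 ⟨a, ha⟩
        refine ⟨v, hVq v hv, by rw [g2 v (hVq v hv)]; exact decide_eq_true hv,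
          (hrk v (hVq v hv).le).trans h5, ?_⟩
        rw [g0 v hv]
        rw [hzz _ ha] at h4
        have e : (⟨ind V v, hV2 ▸ ind_lt hv⟩ : Fin m) = ⟨a, ha⟩ := Fin.ext h5
        rw [e]
        exact h4

end Pool.Agent.EV3
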