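import Pool.Agent.NXL.LangS
import Pool.Agent.LocE.Lang

set_option autoImplicit false

/-!
# The language with descriptions: every set of positions can carry the hard words

A word of `n` letters has three parts of `q = n / 3` letters. For each part `i` the parts `i + 1`
and `i + 2` may describe a set `S` of positions of the part `i` (the letter `v` of the part `i + 2`
is `1` for `v` in `S`, the letter `v` of the part `i + 1` is `1` for `v` not in `S`). The word is
accepted if for some `i` these letters are not both `0` for any `v`, and are both `1` for some `v`,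
or the letters of the part `i` at the positions in `S`, in order, form a word of the language of
`Pool/Agent/NXL/LangS.lean`.
-/

namespace Pool.Agent.EV3

open Finset Pool.Agent.PolyTime Pool.Agent.NegLim Pool.Agent.NegLim.Lang Pool.Agent.NXL

/-- The position of the letter `v` of the part `i`. -/
def prt (n i v : ℕ) : ℕ := (i % 3) * (n / 3) + v

/-- The number of described positions before `v`. -/
def rk (n i : ℕ) (x : ℕ → Bool) (v : ℕ) : ℕ :=
  ∑ u ∈ range v, if x (prt n (i + 2) u) = true then 1 else 0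

/-- The described position number `a` has the letter `1`. -/
def Sel (n i : ℕ) (x : ℕ → Bool) (a : ℕ) : Prop :=
  ∃ v < n / 3, x (prt n (i + 2) v) = true ∧ (rk n i x v = a ∧ x (prt n i v) = true)

open Classical in
/-- The letters at the described positions. -/
noncomputable def virt (n i : ℕ) (x : ℕ → Bool) (a : ℕ) : Bool := decide (Sel n i x a)

lemma virt_iff {n i : ℕ} {x : ℕ → Bool} {a : ℕ} : virt n i x a = true ↔ Sel n i x a := by
  classical
  unfold virt
  exact decide_eq_true_iff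

/-- The number `w` (by its bits) certifies that the word is accepted. -/
def EVer (n L : ℕ) (x w : ℕ → Bool) : Prop :=
  ∃ i < 3, (∀ v < n / 3, x (prt n (i + 1) v) = true ∨ x (prt n (i + 2) v) = true) ∧
    ((∃ v < n / 3, x (prt n (i + 1) v) = true ∧ x (prt n (i + 2) v) = true) ∨
      (rk n i x (n / 3) ≤ L ∧ Scale (rk n i x (n / 3)) (virt n i x) w))

lemma prt_lt {n v : ℕ} (i : ℕ) (hv : v < n / 3) : prt n i v < n := by
  unfold prt
  have h1 : i % 3 < 3 := Nat.mod_lt _ (by norm_num)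
  have h2 : i % 3 * (n / 3) + n / 3 ≤ 3 * (n / 3) := by
    calc i % 3 * (n / 3) + n / 3 = (i % 3 + 1) * (n / 3) := by ring
      _ ≤ 3 * (n / 3) := Nat.mul_le_mul_right _ h1
  have h3 : 3 * (n / 3) ≤ n := Nat.mul_div_le n 3
  omega

lemma ever_mono {n L : ℕ} {x x' w : ℕ → Bool} (h : ∀ a < n, x a = true → x' a = true)
    (hc : EVer n L x w) : EVer n L x' w := by
  obtain ⟨i, hi, h1, h2⟩ := hc
  refine ⟨i, hi, fun v hv => (h1 v hv).imp (h _ (prt_lt _ hv)) (h _ (prt_lt _ hv)), ?_⟩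
  by_cases hb : ∃ v < n / 3, x' (prt n (i + 1) v) = true ∧ x' (prt n (i + 2) v) = true
  · exact Or.inl hb
  right
  have e1 : ∀ v < n / 3, x (prt n (i + 2) v) = x' (prt n (i + 2) v) := by
    intro v hv
    rw [Bool.eq_iff_iff]
    refine ⟨h _ (prt_lt _ hv), fun h3 => ?_⟩
    rcases h1 v hv with h4 | h4
    · exact absurd ⟨v, hv, h _ (prt_lt _ hv) h4, h3⟩ hb
    · exact h4
  have e2 : ∀ v ≤ n / 3, rk n i x v = rk n i x' v := by
    intro v hv
    unfold rk
    refine Finset.sum_congr rfl fun u hu => ?_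
    rw [e1 u (lt_of_lt_of_le (Finset.mem_range.1 hu) hv)]
  rcases h2 with ⟨v, hv, h3, h4⟩ | ⟨h3, h4⟩
  · exact absurd ⟨v, hv, h _ (prt_lt _ hv) h3, h _ (prt_lt _ hv) h4⟩ hb
  · rw [e2 _ le_rfl] at h3 h4
    refine ⟨h3, scale_mono (fun a _ ha => ?_) h4⟩
    rw [virt_iff] at ha ⊢
    obtain ⟨v, hv, h5, h6, h7⟩ := ha
    exact ⟨v, hv, h _ (prt_lt _ hv) h5, by rw [← e2 v hv.le]; exact h6, h _ (prt_lt _ hv) h7⟩

lemma ever_congr {n L : ℕ} {x w w' : ℕ → Bool} (h : ∀ a < L, w a = w' a)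
    (hc : EVer n L x w) : EVer n L x w' := by
  obtain ⟨i, hi, h1, h2⟩ := hc
  refine ⟨i, hi, h1, h2.imp id fun h3 => ⟨h3.1, scale_congr (fun a ha => h a ?_) h3.2⟩⟩
  exact lt_of_lt_of_le ha h3.1

/-! ### Polynomial time -/

section

variable {α : Type} [Ctx α]

lemma pf_prt {N I V : List Bool → α → ℕ} (hN : PF N) (hI : PF I) (hV : PF V) :
    PF (fun y a => prt (N y a) (I y a) (V y a)) :=
  ((hI.mod (PF.const 3)).mul (hN.div (PF.const 3))).add hV

lemma pf_rk {N I V : List Bool → α → ℕ} {X : List Bool → α → ℕ → Bool} (hN : PF N) (hI : PF I)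
    (hV : PF V) (hX : PD (fun y (p : α × ℕ) => X y p.1 p.2 = true)) :
    PF (fun y a => rk (N y a) (I y a) (X y a) (V y a)) := by
  have h1 : PD (fun y (p : α × ℕ) => X y p.1 (prt (N y p.1) (I y p.1 + 2) p.2) = true) :=
    PD.sub1 (Proj.id.fst) (pf_prt hN.fst (hI.fst.add (PF.const 2)) PF.snd) hX
  exact PF.sum (F := fun y (p : α × ℕ) =>
    if X y p.1 (prt (N y p.1) (I y p.1 + 2) p.2) = true then 1 else 0) hV
    (PF.ite h1 (PF.const 1) (PF.const 0))

lemma pd_sel {N I A : List Bool → α → ℕ} {X : List Bool → α → ℕ → Bool} (hN : PF N) (hI : PF I)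
    (hA : PF A) (hX : PD (fun y (p : α × ℕ) => X y p.1 p.2 = true)) :
    PD (fun y a => Sel (N y a) (I y a) (X y a) (A y a)) := by
  have h1 : PD (fun y (p : α × ℕ) => X y p.1 (prt (N y p.1) (I y p.1 + 2) p.2) = true) :=
    PD.sub1 (Proj.id.fst) (pf_prt hN.fst (hI.fst.add (PF.const 2)) PF.snd) hX
  have h2 : PD (fun y (p : α × ℕ) => X y p.1 (prt (N y p.1) (I y p.1) p.2) = true) :=
    PD.sub1 (Proj.id.fst) (pf_prt hN.fst hI.fst PF.snd) hX
  have h4 : PD (fun y (p : (α × ℕ) × ℕ) => X y p.1.1 p.2 = true) :=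
    PD.sub1 (Proj.id.fst.fst) PF.snd hX
  have h3 : PD (fun y (p : α × ℕ) => rk (N y p.1) (I y p.1) (X y p.1) p.2 = A y p.1) :=
    PD.eq (pf_rk hN.fst hI.fst PF.snd h4) hA.fst
  exact PD.exists_lt (P := fun y (p : α × ℕ) =>
    X y p.1 (prt (N y p.1) (I y p.1 + 2) p.2) = true ∧
      (rk (N y p.1) (I y p.1) (X y p.1) p.2 = A y p.1 ∧
        X y p.1 (prt (N y p.1) (I y p.1) p.2) = true))
    (hN.div (PF.const 3)) (h1.and (h3.and h2))

lemma pd_ever {N L : List Bool → α → ℕ} {X W : List Bool → α → ℕ → Bool} (hN : PF N) (hL : PF L)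
    (hX : PD (fun y (p : α × ℕ) => X y p.1 p.2 = true))
    (hW : PD (fun y (p : α × ℕ) => W y p.1 p.2 = true)) :
    PD (fun y a => EVer (N y a) (L y a) (X y a) (W y a)) := by
  have hX2 : PD (fun y (p : (α × ℕ) × ℕ) => X y p.1.1 p.2 = true) :=
    PD.sub1 (Proj.id.fst.fst) PF.snd hX
  have hX3 : PD (fun y (p : ((α × ℕ) × ℕ) × ℕ) => X y p.1.1.1 p.2 = true) :=
    PD.sub1 (Proj.id.fst.fst.fst) PF.snd hX
  have hW2 : PD (fun y (p : (α × ℕ) × ℕ) => W y p.1.1 p.2 = true) :=
    PD.sub1 (Proj.id.fst.fst) PF.snd hW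
  have a1 : PD (fun y (p : (α × ℕ) × ℕ) =>
      X y p.1.1 (prt (N y p.1.1) (p.1.2 + 1) p.2) = true) :=
    PD.sub1 (Proj.id.fst.fst) (pf_prt hN.fst.fst (PF.snd.fst.add (PF.const 1)) PF.snd) hX
  have a2 : PD (fun y (p : (α × ℕ) × ℕ) =>
      X y p.1.1 (prt (N y p.1.1) (p.1.2 + 2) p.2) = true) :=
    PD.sub1 (Proj.id.fst.fst) (pf_prt hN.fst.fst (PF.snd.fst.add (PF.const 2)) PF.snd) hX
  have b1 : PD (fun y (p : α × ℕ) => ∀ v < N y p.1 / 3,
      X y p.1 (prt (N y p.1) (p.2 + 1) v) = true ∨ X y p.1 (prt (N y p.1) (p.2 + 2) v) = true) :=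
    PD.forall_lt (P := fun y (p : (α × ℕ) × ℕ) =>
      X y p.1.1 (prt (N y p.1.1) (p.1.2 + 1) p.2) = true ∨
        X y p.1.1 (prt (N y p.1.1) (p.1.2 + 2) p.2) = true) (hN.div (PF.const 3)).fst (a1.or a2)
  have b2 : PD (fun y (p : α × ℕ) => ∃ v < N y p.1 / 3,
      X y p.1 (prt (N y p.1) (p.2 + 1) v) = true ∧ X y p.1 (prt (N y p.1) (p.2 + 2) v) = true) :=
    PD.exists_lt (P := fun y (p : (α × ℕ) × ℕ) =>
      X y p.1.1 (prt (N y p.1.1) (p.1.2 + 1) p.2) = true ∧
        X y p.1.1 (prt (N y p.1.1) (p.1.2 + 2) p.2) = true) (hN.div (PF.const 3)).fst (a1.and a2)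
  have r1 : PF (fun y (p : α × ℕ) => rk (N y p.1) p.2 (X y p.1) (N y p.1 / 3)) :=
    pf_rk hN.fst PF.snd (hN.div (PF.const 3)).fst hX2
  have b3 : PD (fun y (p : α × ℕ) => rk (N y p.1) p.2 (X y p.1) (N y p.1 / 3) ≤ L y p.1) :=
    PD.le r1 hL.fst
  have v1 : PD (fun y (p : (α × ℕ) × ℕ) => virt (N y p.1.1) p.1.2 (X y p.1.1) p.2 = true) :=
    (pd_sel (X := fun y (p : (α × ℕ) × ℕ) => X y p.1.1) hN.fst.fst PF.snd.fst PF.snd
      hX3).congr fun y p => virt_iff.symm
  have b4 : PD (fun y (p : α × ℕ) => Scale (rk (N y p.1) p.2 (X y p.1) (N y p.1 / 3))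
      (virt (N y p.1) p.2 (X y p.1)) (W y p.1)) :=
    pd_scale (M := fun y (p : α × ℕ) => rk (N y p.1) p.2 (X y p.1) (N y p.1 / 3))
      (X := fun y (p : α × ℕ) => virt (N y p.1) p.2 (X y p.1))
      (W := fun y (p : α × ℕ) => W y p.1) r1 v1 hW2
  exact PD.exists_lt (B := fun _ (_ : α) => 3) (P := fun y (p : α × ℕ) => (∀ v < N y p.1 / 3,
      X y p.1 (prt (N y p.1) (p.2 + 1) v) = true ∨ X y p.1 (prt (N y p.1) (p.2 + 2) v) = true) ∧
    ((∃ v < N y p.1 / 3,
      X y p.1 (prt (N y p.1) (p.2 + 1) v) = true ∧ X y p.1 (prt (N y p.1) (p.2 + 2) v) = true) ∨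
      (rk (N y p.1) p.2 (X y p.1) (N y p.1 / 3) ≤ L y p.1 ∧
        Scale (rk (N y p.1) p.2 (X y p.1) (N y p.1 / 3))
          (virt (N y p.1) p.2 (X y p.1)) (W y p.1)))) (PF.const 3)
    (b1.and (b2.or (b3.and b4)))

end

open Classical in
/-- The language. -/
noncomputable def elang (d : ℕ) (x : List Bool) : Bool :=
  decide (∃ w : ℕ → Bool, EVer x.length (x.length / d) (fun i => x.getD i false) w)

lemma elang_iff (d : ℕ) (x : List Bool) : elang d x = true ↔
    ∃ w : ℕ → Bool, EVer x.length (x.length / d) (fun i => x.getD i false) w := by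
  classical
  unfold elang
  exact decide_eq_true_iff

/-! ### Time -/

/-- The property of padded words. -/
def PLE (y : List Bool) : Prop :=
  ∃ s < y.length, EVer (wlen y) (NPL.lgc (lead y - 1) - 1) (wbit y) (fun a => s.testBit a)

lemma pd_ple {α : Type} [Ctx α] : PD (fun y (_ : α) => PLE y) := by
  refine PD.exists_lt (P := fun y (p : α × ℕ) => EVer (wlen y) (NPL.lgc (lead y - 1) - 1) (wbit y)
    (fun a => p.2.testBit a)) PF.len ?_
  exact pd_ever (N := fun y (_ : α × ℕ) => wlen y)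
    (L := fun y (_ : α × ℕ) => NPL.lgc (lead y - 1) - 1) (X := fun y _ => wbit y)
    (W := fun _ (p : α × ℕ) a => p.2.testBit a) pf_wlen
    ((NPL.pf_lgc (pf_lead.sub (PF.const 1))).sub (PF.const 1)) (pd_wbit PF.snd)
    (PD.testBit PF.snd.fst PF.snd)

lemma ple_pad (m : ℕ) (x : List Bool) : PLE (LocE.padW m x) ↔
    ∃ w : ℕ → Bool, EVer x.length m (fun i => x.getD i false) w := by
  unfold PLE
  rw [LocE.wlen_padW, LocE.lead_padW, LocE.length_padW]
  have hb : wbit (LocE.padW m x) = fun i => x.getD i false := by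
    funext i
    exact LocE.wbit_padW m x i
  have hm : NPL.lgc (2 ^ m - 1) - 1 = m := by
    rw [NPL.lgc_eq]
    have h1 : 1 ≤ 2 ^ m := Nat.one_le_two_pow
    rw [Nat.sub_add_cancel h1, Nat.log_pow (by norm_num), Nat.add_sub_cancel]
  rw [hb, hm]
  constructor
  · rintro ⟨s, _, h⟩
    exact ⟨_, h⟩
  · rintro ⟨w, h⟩
    refine ⟨Nat.ofBits fun k : Fin m => w k, ?_, ?_⟩
    · refine lt_of_lt_of_le (Nat.ofBits_lt_two_pow _) ?_
      omega
    · refine ever_congr (fun a ha => ?_) h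
      rw [Nat.testBit_ofBits_lt _ _ ha]

/-- **The language is decidable in time `O(2^n)`.** -/
theorem elang_time : ∃ d : ℕ, 1 ≤ d ∧ ∃ c : ℕ,
    DecidableInTime (elang d) (fun n => c * 2 ^ n) := by
  classical
  obtain ⟨d, hd, c, hc⟩ := LocE.decidable_of_padded (fun y => decide (PLE y))
    (Zeros.polyTime_of_pd _ pd_ple)
  refine ⟨d, hd, c, ?_⟩
  have h : elang d = fun x => decide (PLE (LocE.padW (x.length / d) x)) := by
    funext x
    rw [Bool.eq_iff_iff, elang_iff, decide_eq_true_iff, ple_pad]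
  rw [h]
  exact hc

/-! ### NP -/

/-- The verifier. -/
def SVE (d : ℕ) (y : List Bool) : Prop :=
  EVer (NPL.plen y) (NPL.plen y / d) (NPL.xbit y) (NPL.sbit y)

lemma pd_sve (d : ℕ) {α : Type} [Ctx α] : PD (fun y (_ : α) => SVE d y) :=
  pd_ever (N := fun y (_ : α) => NPL.plen y) (L := fun y (_ : α) => NPL.plen y / d)
    (X := fun y _ => NPL.xbit y) (W := fun y _ => NPL.sbit y) NPL.pf_plen
    (NPL.pf_plen.div (PF.const d)) (NPL.pd_xbit PF.snd) (NPL.pd_sbit PF.snd)

open Classical in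
/-- **The language is in NP.** -/
theorem elang_inNP (d : ℕ) : InNP (elang d) := by
  refine ⟨fun y => decide (SVE d y), 1, Zeros.polyTime_of_pd _ (pd_sve d), fun x => ?_⟩
  rw [elang_iff]
  have hlt : ∀ a < x.length / d, a < x.length := fun a ha =>
    lt_of_lt_of_le ha (Nat.div_le_self _ _)
  constructor
  · rintro ⟨w, hw⟩
    refine ⟨List.ofFn fun k : Fin x.length => w k, ?_, ?_⟩
    · rw [List.length_ofFn, pow_one]
      omega
    · rw [decide_eq_true_iff]
      unfold SVE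
      rw [NPL.plen_pair]
      refine ever_congr (w := w) (fun a ha => ?_) (ever_mono (fun a ha hx => ?_) hw)
      · rw [NPL.sbit_pair, List.getD_eq_getElem _ _ (by rw [List.length_ofFn]; exact hlt a ha),
          List.getElem_ofFn]
      · rw [NPL.xbit_pair _ _ _ ha]
        exact hx
  · rintro ⟨w, _, hw⟩
    rw [decide_eq_true_iff] at hw
    unfold SVE at hw
    rw [NPL.plen_pair] at hw
    exact ⟨_, ever_mono (fun a ha hx => by rw [← NPL.xbit_pair x w a ha]; exact hx) hw⟩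

/-- The language is monotone on the words of each length. -/
theorem elang_mono (d n : ℕ) : Monotone fun x : Fin n → Bool => elang d (List.ofFn x) := by
  intro x y hxy
  rw [Bool.le_iff_imp]
  simp only
  intro hx
  rw [elang_iff] at hx ⊢
  rw [List.length_ofFn] at hx ⊢
  obtain ⟨w, hw⟩ := hx
  refine ⟨w, ever_mono (fun a ha h => ?_) hw⟩
  rw [List.getD_eq_getElem _ _ (by rw [List.length_ofFn]; exact ha), List.getElem_ofFn] at h ⊢
  exact Bool.le_iff_imp.mp (hxy _) h

end Pool.Agent.EV3
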